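import Pool.Agent.H968R2.Quad.Model

/-! Task A of helper918's blueprint for MP_4d1008_ag: the projective model `Proj ⨁ Mⁿ` is
regular, with function field `F`. -/

set_option autoImplicit false

open AlgebraicGeometry CategoryTheory HomogeneousLocalization

namespace Pool.Agent.H968R2.Quad

/-- The stalk of an affine scheme is the localization. -/
lemma regular_stalk_spec (R : CommRingCat.{0}) (x : PrimeSpectrum R)
    (h : IsRegularLocalRing (Localization.AtPrime x.asIdeal)) :
    IsRegularLocalRing ((Spec R).presheaf.stalk x) := by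
  let k : Algebra R ((Spec R).presheaf.stalk x) := StructureSheaf.stalkAlgebra R x
  have h1 : IsLocalization.AtPrime ((Spec R).presheaf.stalk x) x.asIdeal :=
    StructureSheaf.IsLocalization.to_stalk R x
  exact IsRegularLocalRing.of_ringEquiv
    (IsLocalization.algEquiv x.asIdeal.primeCompl (Localization.AtPrime x.asIdeal)
      ((Spec R).presheaf.stalk x)).toRingEquiv

/-- The function field of a scheme with an affine open chart. -/
lemma functionField_equiv_aux (X : Scheme.{0}) [IsIntegral X] (R : CommRingCat.{0}) [IsDomain R]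
    (g : Spec R ⟶ X) [IsOpenImmersion g] (F : Type) [Field F] [Algebra R F] [IsFractionRing R F] :
    Nonempty (X.functionField ≃+* F) := by
  have e1 : g (genericPoint (Spec R)) = genericPoint X := genericPoint_eq_of_isOpenImmersion g
  have e2 : X.presheaf.stalk (g (genericPoint (Spec R))) ≃+* (Spec R).functionField :=
    (asIso (g.stalkMap (genericPoint (Spec R)))).commRingCatIsoToRingEquiv
  have e3 : (Spec R).functionField ≃+* F :=
    (FractionRing.algEquiv R (Spec R).functionField).symm.toRingEquiv.trans
      (FractionRing.algEquiv R F).toRingEquiv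
  have e4 : Nonempty (X.presheaf.stalk (g (genericPoint (Spec R))) ≃+* F) := ⟨e2.trans e3⟩
  rw [e1] at e4
  exact e4

lemma regular_of_equiv {R S : Type} [CommRing R] [CommRing S] (e : R ≃+* S)
    (h : ∀ (q : Ideal R) [q.IsPrime], IsRegularLocalRing (Localization.AtPrime q))
    (p : Ideal S) [p.IsPrime] : IsRegularLocalRing (Localization.AtPrime p) := by
  have := h (p.comap e)
  exact IsRegularLocalRing.of_ringEquiv <| IsLocalization.ringEquivOfRingEquiv
    (Localization.AtPrime (p.comap e)) (Localization.AtPrime p) e (e.map_primeCompl_comap_eq p)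

variable {O : Type} [CommRing O] {F : Type} [Field F] [Algebra O F] (M : Submodule O F)

lemma stalk_regular
    (hreg : ∀ f ∈ M, f ≠ 0 →
      ∀ (q : Ideal (Algebra.adjoin O {y : F | ∃ m ∈ M, y = m / f})) [q.IsPrime],
      IsRegularLocalRing (Localization.AtPrime q)) (y : model M) :
    IsRegularLocalRing ((model M).presheaf.stalk y) := by
  obtain ⟨a, ha, ha0, z, rfl⟩ := exists_chart M y
  let z' : PrimeSpectrum (Away (mPiece M) (tElt M a ha)) := z
  have h1 : IsRegularLocalRing (Localization.AtPrime z'.asIdeal) :=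
    regular_of_equiv (chartEquiv M a ha ha0).symm (fun q _ => hreg a ha ha0 q) z'.asIdeal
  have h2 := regular_stalk_spec (CommRingCat.of (Away (mPiece M) (tElt M a ha))) z' h1
  have e := (asIso ((modelChart M a ha).stalkMap z)).commRingCatIsoToRingEquiv
  exact IsRegularLocalRing.of_ringEquiv e.symm

lemma functionField_equiv (f : F) (hf : f ∈ M) (hf0 : f ≠ 0)
    (hgen : ∀ x : F, ∃ a ∈ Algebra.adjoin O {y : F | ∃ m ∈ M, y = m / f},
      ∃ b ∈ Algebra.adjoin O {y : F | ∃ m ∈ M, y = m / f}, b ≠ 0 ∧ x = a / b)
    [IsIntegral (model M)] :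
    Nonempty ((model M).functionField ≃+* F) := by
  let B := Away (mPiece M) (tElt M f hf)
  have hB : IsDomain B := (psi_injective M f hf hf0).isDomain (psi M f hf hf0)
  let R : CommRingCat.{0} := CommRingCat.of B
  have hR : IsDomain R := hB
  let _ : Algebra R F := (psi M f hf hf0).toAlgebra
  have hinj : Function.Injective (algebraMap R F) := psi_injective M f hf hf0
  have hfs : FaithfulSMul R F := (faithfulSMul_iff_algebraMap_injective R F).2 hinj
  have hfr : IsFractionRing R F := by
    refine IsFractionRing.of_field R F ?_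
    intro x
    obtain ⟨a, ha, b, hb, _, hx⟩ := hgen x
    obtain ⟨a', ha'⟩ := (mem_range_psi M f hf hf0 a).2 ha
    obtain ⟨b', hb'⟩ := (mem_range_psi M f hf hf0 b).2 hb
    refine ⟨a', b', ?_⟩
    rw [hx, ← ha', ← hb']
    rfl
  have hg : IsOpenImmersion (modelChart M f hf) := inferInstance
  exact functionField_equiv_aux (model M) R (modelChart M f hf) F

/-- TASK A. Projective model `Proj ⨁ Mⁿ` of a field `F`, attached to a finitely generated
`O`-submodule `M` of `F`; `O` is finite over `ℤ`. -/
theorem exists_model {O : Type} [CommRing O] [IsDomain O] [Module.Finite ℤ O]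
    {F : Type} [Field F] [Algebra O F] (hinj : Function.Injective (algebraMap O F))
    (M : Submodule O F) (hM : M.FG) (h0 : ∃ f ∈ M, f ≠ 0)
    (hgen : ∀ f ∈ M, f ≠ 0 → ∀ x : F, ∃ a ∈ Algebra.adjoin O {y : F | ∃ m ∈ M, y = m / f},
      ∃ b ∈ Algebra.adjoin O {y : F | ∃ m ∈ M, y = m / f}, b ≠ 0 ∧ x = a / b)
    (hreg : ∀ f ∈ M, f ≠ 0 →
      ∀ (q : Ideal (Algebra.adjoin O {y : F | ∃ m ∈ M, y = m / f})) [q.IsPrime],
      IsRegularLocalRing (Localization.AtPrime q)) :
    ∃ (X' : Scheme.{0}) (_ : IsIntegral X') (g : X' ⟶ Spec (CommRingCat.of ℤ)),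
      IsProper g ∧
      (∀ x : X',
        (((Module.finrank (IsLocalRing.ResidueField (X'.presheaf.stalk x))
            (IsLocalRing.CotangentSpace (X'.presheaf.stalk x)) : ℕ∞)) : WithBot ℕ∞)
          = ringKrullDim (X'.presheaf.stalk x)) ∧
      Nonempty (X'.functionField ≃+* F) := by
  obtain ⟨f, hf, hf0⟩ := h0
  have hint : IsIntegral (model M) := model_integral M f hf hf0
  refine ⟨model M, hint,
    modelMap M ≫ Spec.map (CommRingCat.ofHom (algebraMap ℤ O)), ?_, ?_,
    functionField_equiv M f hf hf0 (hgen f hf hf0)⟩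
  · have h1 : IsProper (modelMap M) := modelMap_isProper M hinj hM
    have h2 : IsFinite (Spec.map (CommRingCat.ofHom (algebraMap ℤ O))) := by
      rw [IsFinite.SpecMap_iff]
      exact RingHom.finite_algebraMap.2 inferInstance
    have h3 : IsProper (Spec.map (CommRingCat.ofHom (algebraMap ℤ O))) := inferInstance
    exact MorphismProperty.comp_mem @IsProper _ _ h1 h3
  · intro x
    have h1 := stalk_regular M hreg x
    have h2 := (IsRegularLocalRing.iff_finrank_cotangentSpace _).1 h1
    rw [← h2]
    rfl

end Pool.Agent.H968R2.Quad
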