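import Mathlib

/-! Task C of helper918's blueprint for MP_4d1008_ag: a local subring of a field presented by a
regular local ring is regular. -/

set_option autoImplicit false

open MvPolynomial

namespace Pool.Agent.H968R2.Quad

/-- Task C, with the hypothesis that `A_q` is a domain (regular local rings are domains). -/
theorem regular_subring_of_isDomain {R A F : Type} [CommRing R] [CommRing A] [Algebra R A] [Field F]
    [Algebra R F]
    (𝒪 : Subring F) (e : A →ₐ[R] F) (he : ∀ a, e a ∈ 𝒪)
    (hfrac : ∀ x ∈ 𝒪, ∃ a b : A, e b ≠ 0 ∧ (e b)⁻¹ ∈ 𝒪 ∧ x = e a / e b)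
    (q : Ideal A) [q.IsPrime] (hq : ∀ a, a ∈ q ↔ (e a = 0 ∨ (e a)⁻¹ ∉ 𝒪))
    (hreg : IsRegularLocalRing (Localization.AtPrime q))
    (hdom : IsDomain (Localization.AtPrime q))
    {ρ : Type} (y : ρ → A) (P : MvPolynomial ρ R) (hP : P ≠ 0)
    (hPy : MvPolynomial.aeval y P = 0)
    (j₀ : ρ) (hind : AlgebraicIndependent R (fun j : {j : ρ // j ≠ j₀} => e (y j)))
    (hgen : ∀ a : A, ∃ p p' : MvPolynomial ρ R, e (MvPolynomial.aeval y p') ≠ 0 ∧
      MvPolynomial.aeval y p' * a = MvPolynomial.aeval y p) :
    IsRegularLocalRing 𝒪 := by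
  classical
  have hb : ∀ b : q.primeCompl, e (b : A) ≠ 0 ∧ (e (b : A))⁻¹ ∈ 𝒪 := by
    intro b
    have h := b.2
    have h2 : ¬ ((b : A) ∈ q) := h
    rw [hq] at h2
    push Not at h2
    exact h2
  let T := Localization.AtPrime q
  let φ : T →ₐ[R] F := IsLocalization.liftAlgHom (M := q.primeCompl) (f := e)
    (fun b => IsUnit.mk0 _ (hb b).1)
  have hφ : ∀ a : A, φ (algebraMap A T a) = e a := by
    intro a
    exact IsLocalization.lift_eq (M := q.primeCompl) (g := e.toRingHom)
      (fun b => IsUnit.mk0 _ (hb b).1) a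
  have hφmk : ∀ (a : A) (b : q.primeCompl), φ (IsLocalization.mk' T a b) = e a / e b := by
    intro a b
    have h1 : φ (IsLocalization.mk' T a b) * φ (algebraMap A T b) = φ (algebraMap A T a) := by
      rw [← map_mul, IsLocalization.mk'_spec]
    rw [hφ, hφ] at h1
    rw [eq_div_iff (hb b).1, h1]
  -- the generators in `T`
  let yT : ρ → T := fun j => algebraMap A T (y j)
  have hyT : ∀ p : MvPolynomial ρ R, aeval yT p = algebraMap A T (aeval y p) := by
    intro p
    exact MvPolynomial.aeval_algebraMap_apply T y p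
  let x : {j : ρ // j ≠ j₀} → T := fun j => yT j
  have hx : AlgebraicIndependent R x := by
    refine AlgebraicIndependent.of_comp φ ?_
    have : (φ ∘ x) = (fun j : {j : ρ // j ≠ j₀} => e (y j)) := by
      funext j
      exact hφ (y j)
    rw [this]
    exact hind
  have hnot : ¬ AlgebraicIndependent R yT := by
    intro h
    have : aeval yT P = 0 := by rw [hyT, hPy, map_zero]
    exact hP (h.eq_zero_of_aeval_eq_zero _ this)
  have halg : IsAlgebraic (Algebra.adjoin R (Set.range x)) (yT j₀) := by
    by_contra h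
    apply hnot
    have h2 := (hx.option_iff_transcendental (yT j₀)).mpr h
    rw [← algebraicIndependent_equiv (Equiv.optionSubtypeNe j₀)]
    convert h2 using 1
    funext o
    cases o with
    | none => simp
    | some j => simp [x]
  have hmem : ∀ p : MvPolynomial ρ R, IsAlgebraic (Algebra.adjoin R (Set.range x)) (aeval yT p) := by
    intro p
    induction p using MvPolynomial.induction_on with
    | C a =>
      rw [MvPolynomial.algHom_C]
      have : algebraMap R T a = algebraMap (Algebra.adjoin R (Set.range x)) T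
          (algebraMap R _ a) := rfl
      rw [this]
      exact isAlgebraic_algebraMap _
    | add p q hp hq =>
      rw [map_add]
      exact hp.add hq
    | mul_X p n hp =>
      rw [map_mul, aeval_X]
      refine hp.mul ?_
      by_cases hn : n = j₀
      · subst hn
        exact halg
      · have hm : yT n ∈ Algebra.adjoin R (Set.range x) :=
          Algebra.subset_adjoin ⟨⟨n, hn⟩, rfl⟩
        exact isAlgebraic_algebraMap (⟨yT n, hm⟩ : Algebra.adjoin R (Set.range x))
  have hinjR : ∀ r : Algebra.adjoin R (Set.range x), φ (r : T) = 0 → r = 0 := by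
    intro r hr
    have hr2 : ∀ z ∈ Algebra.adjoin R (Set.range x), ∃ p : MvPolynomial {j : ρ // j ≠ j₀} R, aeval x p = z := by
      intro z hz
      rw [Algebra.adjoin_range_eq_range_aeval] at hz
      exact hz
    obtain ⟨p, hp'⟩ := hr2 r r.2
    rw [← hp'] at hr
    have h3 : aeval (fun j : {j : ρ // j ≠ j₀} => e (y j)) p = 0 := by
      have h4 : (fun j : {j : ρ // j ≠ j₀} => e (y j)) = fun j => φ (x j) := by
        funext j
        exact (hφ (y j)).symm
      rw [h4]
      have h6 : φ (aeval x p) = aeval (fun j => φ (x j)) p := by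
        rw [← MvPolynomial.comp_aeval_apply]
      rw [← h6, hr]
    have h4 := hind.eq_zero_of_aeval_eq_zero _ h3
    apply Subtype.ext
    rw [← hp', h4, map_zero]
    rfl
  have hzero : ∀ p : MvPolynomial ρ R, φ (aeval yT p) = 0 → aeval yT p = 0 := by
    intro p hp
    by_contra hne
    obtain ⟨r, hr0, hdvd⟩ := (hmem p).exists_nonzero_dvd (mem_nonZeroDivisors_of_ne_zero hne)
    apply hr0
    apply hinjR
    obtain ⟨c, hc⟩ := hdvd
    have : (r : T) = aeval yT p * c := hc
    rw [this, map_mul, hp, zero_mul]
  have hinjA : ∀ a : A, e a = 0 → algebraMap A T a = 0 := by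
    intro a ha
    obtain ⟨p, p', hp', hpa⟩ := hgen a
    have h1 : e (aeval y p) = 0 := by rw [← hpa, map_mul, ha, mul_zero]
    have h2 : aeval yT p = 0 := by
      apply hzero
      rw [hyT, hφ, h1]
    have h3 : algebraMap A T (aeval y p') * algebraMap A T a = 0 := by
      rw [← map_mul, hpa, ← hyT, h2]
    rcases mul_eq_zero.mp h3 with h | h
    · exfalso
      apply hp'
      rw [← hφ, h, map_zero]
    · exact h
  have hinj : Function.Injective φ := by
    rw [injective_iff_map_eq_zero]
    intro z hz
    obtain ⟨a, b, rfl⟩ := IsLocalization.exists_mk'_eq q.primeCompl z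
    rw [hφmk, div_eq_zero_iff] at hz
    have h1 : e a = 0 := by
      rcases hz with h | h
      · exact h
      · exact absurd h (hb b).1
    have h2 := hinjA a h1
    rw [IsLocalization.mk'_eq_zero_iff]
    rw [IsLocalization.map_eq_zero_iff q.primeCompl] at h2
    exact h2
  have hran : ∀ z : T, φ z ∈ 𝒪 := by
    intro z
    obtain ⟨a, b, rfl⟩ := IsLocalization.exists_mk'_eq q.primeCompl z
    rw [hφmk, div_eq_mul_inv]
    exact 𝒪.mul_mem (he a) (hb b).2
  let ψ : T →+* 𝒪 := (φ : T →+* F).codRestrict 𝒪 hran
  have hψ : Function.Bijective ψ := by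
    constructor
    · intro z w hzw
      apply hinj
      exact congrArg Subtype.val hzw
    · intro z
      obtain ⟨a, b, hb0, hb1, hz⟩ := hfrac z z.2
      have hbq : b ∉ q := by
        rw [hq]
        push Not
        exact ⟨hb0, hb1⟩
      let b' : q.primeCompl := ⟨b, hbq⟩
      refine ⟨IsLocalization.mk' T a b', ?_⟩
      apply Subtype.ext
      exact (hφmk a b').trans hz.symm
  exact IsRegularLocalRing.of_ringEquiv (RingEquiv.ofBijective ψ hψ)

end Pool.Agent.H968R2.Quad
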