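import Mathlib

/-! Task A of helper918's blueprint for MP_4d1008_ag: the graded algebra `⨁ Mⁿ` of a submodule `M`
of a field. -/

set_option autoImplicit false

open Polynomial DirectSum HomogeneousLocalization

namespace Pool.Agent.H968R2.Quad

variable {O : Type} [CommRing O] {F : Type} [Field F] [Algebra O F] (M : Submodule O F)

/-- The algebra `⨁ Mⁿ Tⁿ` inside `F[T]`. -/
def mAlg : Subalgebra O F[X] where
  carrier := {p | ∀ n, p.coeff n ∈ M ^ n}
  mul_mem' := by
    intro p q hp hq n
    rw [coeff_mul]
    apply Submodule.sum_mem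
    rintro ⟨i, j⟩ hij
    rw [Finset.HasAntidiagonal.mem_antidiagonal] at hij
    rw [← hij, pow_add]
    exact Submodule.mul_mem_mul (hp i) (hq j)
  add_mem' := by
    intro p q hp hq n
    rw [coeff_add]
    exact Submodule.add_mem _ (hp n) (hq n)
  algebraMap_mem' := by
    intro r n
    rw [Polynomial.algebraMap_apply, coeff_C]
    split_ifs with h
    · subst h
      rw [pow_zero]
      exact Submodule.mem_one.2 ⟨r, rfl⟩
    · exact Submodule.zero_mem _

lemma mem_mAlg {p : F[X]} : p ∈ mAlg M ↔ ∀ n, p.coeff n ∈ M ^ n := Iff.rfl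

lemma monomial_mem {n : ℕ} {a : F} (ha : a ∈ M ^ n) : monomial n a ∈ mAlg M := by
  intro m
  rw [coeff_monomial]
  split_ifs with h
  · subst h; exact ha
  · exact Submodule.zero_mem _

/-- The graded piece of degree `n`. -/
def mPiece (n : ℕ) : Submodule O (mAlg M) where
  carrier := {f | ∀ m, m ≠ n → (f : F[X]).coeff m = 0}
  add_mem' := by
    intro f g hf hg m hm
    have h1 := hf m hm
    have h2 := hg m hm
    simp only [Subalgebra.coe_add, coeff_add, h1, h2, add_zero]
  zero_mem' := by intro m _; simp
  smul_mem' := by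
    intro a f hf m hm
    have h1 := hf m hm
    simp only [Subalgebra.coe_smul, coeff_smul, h1, smul_zero]

/-- the element `a T ^ n`, for `a ∈ M ^ n` -/
noncomputable def mMon (n : ℕ) (a : F) (ha : a ∈ M ^ n) : mAlg M :=
  ⟨monomial n a, monomial_mem M ha⟩

lemma mMon_mem (n : ℕ) (a : F) (ha : a ∈ M ^ n) : mMon M n a ha ∈ mPiece M n := by
  intro m hm
  simp only [mMon, coeff_monomial]
  rw [if_neg (Ne.symm hm)]

lemma eq_mMon {n : ℕ} {f : mAlg M} (hf : f ∈ mPiece M n) :
    f = mMon M n ((f : F[X]).coeff n) (f.2 n) := by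
  apply Subtype.ext
  ext m
  simp only [mMon, coeff_monomial]
  by_cases h : n = m
  · subst h; simp
  · rw [if_neg h]
    exact hf m (Ne.symm h)

instance : SetLike.GradedMonoid (mPiece M) where
  one_mem := by
    intro m hm
    simp only [OneMemClass.coe_one, coeff_one]
    rw [if_neg hm]
  mul_mem := by
    intro i j f g hf hg
    rw [eq_mMon M hf, eq_mMon M hg]
    intro m hm
    simp only [mMon, MulMemClass.mk_mul_mk, monomial_mul_monomial, coeff_monomial]
    rw [if_neg (Ne.symm hm)]

/-- The homogeneous component of degree `i`. -/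
noncomputable def mComp (i : ℕ) (f : mAlg M) : mPiece M i :=
  ⟨mMon M i ((f : F[X]).coeff i) (f.2 i), mMon_mem M _ _ _⟩

/-- Decomposition into homogeneous components. -/
noncomputable def mDec (f : mAlg M) : ⨁ i, mPiece M i :=
  ∑ i ∈ (f : F[X]).support, DirectSum.of (fun i => mPiece M i) i (mComp M i f)

lemma mDec_apply (f : mAlg M) (i : ℕ) : mDec M f i = mComp M i f := by
  classical
  unfold mDec
  rw [DFinsupp.finsetSum_apply]
  by_cases hi : i ∈ (f : F[X]).support
  · rw [Finset.sum_eq_single i]
    · exact DirectSum.of_eq_same _ _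
    · intro j _ hj
      exact DirectSum.of_eq_of_ne _ _ _ (Ne.symm hj)
    · intro h; exact absurd hi h
  · rw [Finset.sum_eq_zero]
    · apply Subtype.ext
      apply Subtype.ext
      simp only [mComp, mMon]
      rw [notMem_support_iff.1 hi]
      simp
    · intro j hj
      refine DirectSum.of_eq_of_ne _ _ _ ?_
      rintro rfl
      exact hi hj

lemma coeff_coe_sum (x : ⨁ i, mPiece M i) (m : ℕ) :
    ((DirectSum.coeAddMonoidHom (mPiece M) x : mAlg M) : F[X]).coeff m =
      (((x m : mPiece M m) : mAlg M) : F[X]).coeff m := by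
  classical
  induction x using DirectSum.induction_on with
  | zero => simp
  | of i y =>
    rw [DirectSum.coeAddMonoidHom_of]
    by_cases h : i = m
    · subst h
      rw [DirectSum.of_eq_same]
    · rw [DirectSum.of_eq_of_ne _ _ _ (Ne.symm h)]
      simp only [ZeroMemClass.coe_zero, coeff_zero]
      exact y.2 m (Ne.symm h)
  | add x y hx hy =>
    rw [map_add, DirectSum.add_apply]
    simp only [Subalgebra.coe_add, coeff_add, Submodule.coe_add, hx, hy]

noncomputable instance : GradedAlgebra (mPiece M) where
  decompose' := mDec M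
  left_inv := by
    intro f
    apply Subtype.ext
    ext m
    rw [coeff_coe_sum, mDec_apply]
    simp [mComp, mMon]
  right_inv := by
    intro x
    refine DFinsupp.ext fun i => ?_
    rw [mDec_apply]
    apply Subtype.ext
    rw [mComp]
    simp only
    rw [eq_mMon M (x i).2]
    apply Subtype.ext
    simp only [mMon]
    rw [coeff_coe_sum]

/-- the ring map from `O` to the degree zero part -/
noncomputable def toZero : O →+* mPiece M 0 where
  toFun a := ⟨mMon M 0 (algebraMap O F a) (by rw [pow_zero]; exact Submodule.mem_one.2 ⟨a, rfl⟩),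
    mMon_mem M _ _ _⟩
  map_one' := by
    apply Subtype.ext; apply Subtype.ext
    simp only [mMon, map_one, monomial_zero_one]
    rfl
  map_mul' a b := by
    apply Subtype.ext; apply Subtype.ext
    simp only [mMon]
    change monomial 0 (algebraMap O F (a * b)) =
      monomial 0 (algebraMap O F a) * monomial 0 (algebraMap O F b)
    rw [monomial_mul_monomial, map_mul]
  map_zero' := by
    apply Subtype.ext; apply Subtype.ext
    simp only [mMon, map_zero]
    rfl
  map_add' a b := by
    apply Subtype.ext; apply Subtype.ext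
    simp only [mMon, map_add]
    rfl

lemma toZero_bijective (hinj : Function.Injective (algebraMap O F)) :
    Function.Bijective (toZero M) := by
  constructor
  · intro a b h
    have h2 := congrArg (fun z : mPiece M 0 => ((z : mAlg M) : F[X]).coeff 0) h
    apply hinj
    simpa [toZero, mMon] using h2
  · intro z
    have h1 : (((z : mAlg M) : F[X]).coeff 0) ∈ M ^ 0 := (z : mAlg M).2 0
    rw [pow_zero] at h1
    obtain ⟨a, ha⟩ := Submodule.mem_one.1 h1
    refine ⟨a, ?_⟩
    apply Subtype.ext
    refine Eq.trans ?_ (eq_mMon M z.2).symm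
    apply Subtype.ext
    simp only [toZero, mMon, RingHom.coe_mk, MonoidHom.coe_mk, OneHom.coe_mk]
    rw [ha]

/-- The element `a T`, for `a ∈ M`. -/
noncomputable def tElt (a : F) (ha : a ∈ M) : mAlg M := mMon M 1 a (by simpa using ha)

lemma tElt_mem (a : F) (ha : a ∈ M) : tElt M a ha ∈ mPiece M 1 := mMon_mem M _ _ _

/-- Generation in degree one. -/
lemma mMon_mem_of_tElt {B : Type} [SetLike B (mAlg M)] [SubringClass B (mAlg M)] (S : B)
    (h0 : ∀ a : O, algebraMap O (mAlg M) a ∈ S) (h1 : ∀ (a : F) (ha : a ∈ M), tElt M a ha ∈ S)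
    (n : ℕ) (a : F) (ha : a ∈ M ^ n) : mMon M n a ha ∈ S := by
  induction n generalizing a with
  | zero =>
    have ha' := ha
    rw [pow_zero] at ha'
    obtain ⟨r, hr⟩ := Submodule.mem_one.1 ha'
    have : mMon M 0 a ha = algebraMap O (mAlg M) r := by
      apply Subtype.ext
      simp only [mMon]
      rw [← hr]
      rfl
    rw [this]
    exact h0 r
  | succ n ih =>
    have ha' := ha
    rw [pow_succ] at ha'
    induction ha' using Submodule.mul_induction_on' with
    | mem_mul_mem m hm c hc =>
      have : mMon M (n + 1) (m * c) ha = mMon M n m hm * tElt M c hc := by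
        apply Subtype.ext
        simp only [mMon, tElt]
        change _ = monomial n m * monomial 1 c
        rw [monomial_mul_monomial]
      rw [this]
      exact mul_mem (ih m hm) (h1 c hc)
    | add a ha1 c hc iha ihc =>
      have ha'' : a ∈ M ^ (n + 1) := by rw [pow_succ]; exact ha1
      have hc'' : c ∈ M ^ (n + 1) := by rw [pow_succ]; exact hc
      have : mMon M (n + 1) (a + c) ha = mMon M (n + 1) a ha'' + mMon M (n + 1) c hc'' := by
        apply Subtype.ext
        simp only [mMon]
        change _ = monomial (n + 1) a + monomial (n + 1) c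
        rw [map_add]
      rw [this]
      exact add_mem (iha ha'') (ihc hc'')

lemma fg_mAlg (hM : M.FG) : Algebra.FiniteType O (mAlg M) := by
  classical
  obtain ⟨s, hs⟩ := hM
  have hsM : ∀ x ∈ s, x ∈ M := fun x hx => by rw [← hs]; exact Submodule.subset_span hx
  let t : Finset (mAlg M) := s.attach.image fun x => tElt M x.1 (hsM x.1 x.2)
  refine ⟨t, ?_⟩
  rw [eq_top_iff]
  rintro z -
  have h1 : ∀ (a : F) (ha : a ∈ M), tElt M a ha ∈ Algebra.adjoin O (t : Set (mAlg M)) := by
    intro a ha
    have key : ∀ a ∈ Submodule.span O (s : Set F), ∃ ha : a ∈ M,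
        tElt M a ha ∈ Algebra.adjoin O (t : Set (mAlg M)) := by
      intro a ha
      induction ha using Submodule.span_induction with
      | mem x hx =>
        refine ⟨hsM x hx, Algebra.subset_adjoin ?_⟩
        simp only [t, Finset.coe_image, Set.mem_image]
        exact ⟨⟨x, hx⟩, by simp, rfl⟩
      | zero =>
        refine ⟨Submodule.zero_mem _, ?_⟩
        have : tElt M 0 (Submodule.zero_mem _) = 0 := by
          apply Subtype.ext
          simp [tElt, mMon]
        rw [this]
        exact zero_mem _
      | add x y _ _ ihx ihy =>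
        obtain ⟨hx, hx'⟩ := ihx
        obtain ⟨hy, hy'⟩ := ihy
        refine ⟨Submodule.add_mem _ hx hy, ?_⟩
        have : tElt M (x + y) (Submodule.add_mem _ hx hy) = tElt M x hx + tElt M y hy := by
          apply Subtype.ext
          simp only [tElt, mMon]
          change _ = monomial 1 x + monomial 1 y
          rw [map_add]
        rw [this]
        exact add_mem hx' hy'
      | smul r x _ ihx =>
        obtain ⟨hx, hx'⟩ := ihx
        refine ⟨Submodule.smul_mem _ _ hx, ?_⟩
        have : tElt M (r • x) (Submodule.smul_mem _ _ hx) = r • tElt M x hx := by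
          apply Subtype.ext
          simp only [tElt, mMon]
          change _ = r • monomial 1 x
          rw [smul_monomial]
        rw [this]
        exact Subalgebra.smul_mem _ hx' _
    obtain ⟨_, h⟩ := key a (by rw [hs]; exact ha)
    exact h
  rw [← DirectSum.sum_support_decompose (mPiece M) z]
  apply Subalgebra.sum_mem
  intro i _
  rw [eq_mMon M (DirectSum.decompose (mPiece M) z i).2]
  exact mMon_mem_of_tElt M _ (fun a => Subalgebra.algebraMap_mem _ a) h1 _ _ _

lemma finiteType_zero (hM : M.FG) : Algebra.FiniteType (mPiece M 0) (mAlg M) := by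
  obtain ⟨s, hs⟩ := (fg_mAlg M hM).out
  refine ⟨s, ?_⟩
  rw [eq_top_iff]
  rintro z -
  have hz : z ∈ Algebra.adjoin O (s : Set (mAlg M)) := by rw [hs]; trivial
  induction hz using Algebra.adjoin_induction with
  | mem x hx => exact Algebra.subset_adjoin hx
  | algebraMap r =>
    have : algebraMap O (mAlg M) r =
        algebraMap (mPiece M 0) (mAlg M) (toZero M r) := by
      apply Subtype.ext
      rfl
    rw [this]
    exact Subalgebra.algebraMap_mem _ _
  | add x y _ _ hx hy => exact Subalgebra.add_mem _ hx hy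
  | mul x y _ _ hx hy => exact Subalgebra.mul_mem _ hx hy

/-- evaluation at `T = 1` -/
noncomputable def evalOne : mAlg M →+* F :=
  (evalRingHom (1 : F)).comp (mAlg M).val.toRingHom

lemma evalOne_mMon (n : ℕ) (a : F) (ha : a ∈ M ^ n) : evalOne M (mMon M n a ha) = a := by
  simp [evalOne, mMon]

lemma evalOne_tElt (a : F) (ha : a ∈ M) : evalOne M (tElt M a ha) = a :=
  evalOne_mMon M 1 a _

/-- The map from the chart ring to the field. -/
noncomputable def psi (a : F) (ha : a ∈ M) (ha0 : a ≠ 0) :
    Away (mPiece M) (tElt M a ha) →+* F :=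
  (IsLocalization.Away.lift (S := Localization.Away (tElt M a ha)) (tElt M a ha)
    (g := evalOne M) (by rw [evalOne_tElt]; exact IsUnit.mk0 _ ha0)).comp
    (algebraMap (Away (mPiece M) (tElt M a ha)) (Localization.Away (tElt M a ha)))

/-- The element `b / a ^ n` of the chart ring, for `b ∈ M ^ n`. -/
noncomputable def frac (a : F) (ha : a ∈ M) (n : ℕ) (b : F) (hb : b ∈ M ^ n) :
    Away (mPiece M) (tElt M a ha) :=
  Away.mk (mPiece M) (tElt_mem M a ha) n (mMon M n b hb)
    (by rw [smul_eq_mul, mul_one]; exact mMon_mem M n b hb)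

lemma exists_frac (a : F) (ha : a ∈ M) (z : Away (mPiece M) (tElt M a ha)) :
    ∃ (n : ℕ) (b : F) (hb : b ∈ M ^ n), z = frac M a ha n b hb := by
  obtain ⟨n, y, hy, rfl⟩ := Away.mk_surjective (mPiece M) (tElt_mem M a ha) z
  have hy' : y ∈ mPiece M n := by
    have := hy
    rwa [smul_eq_mul, mul_one] at this
  refine ⟨n, (y : F[X]).coeff n, y.2 n, ?_⟩
  unfold frac
  congr 1
  exact eq_mMon M hy'

lemma psi_frac (a : F) (ha : a ∈ M) (ha0 : a ≠ 0) (n : ℕ) (b : F) (hb : b ∈ M ^ n) :
    psi M a ha ha0 (frac M a ha n b hb) = b / a ^ n := by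
  unfold psi frac
  rw [RingHom.comp_apply, HomogeneousLocalization.algebraMap_apply, Away.val_mk,
    Localization.mk_eq_mk', IsLocalization.Away.lift, IsLocalization.lift_mk'_spec]
  simp only [map_pow, evalOne_tElt, evalOne_mMon]
  field_simp

lemma psi_injective (a : F) (ha : a ∈ M) (ha0 : a ≠ 0) :
    Function.Injective (psi M a ha ha0) := by
  rw [injective_iff_map_eq_zero]
  intro z hz
  obtain ⟨n, b, hb, rfl⟩ := exists_frac M a ha z
  rw [psi_frac] at hz
  have h2 : b = 0 := by
    rcases div_eq_zero_iff.1 hz with h | h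
    · exact h
    · exact absurd h (pow_ne_zero _ ha0)
  subst h2
  unfold frac
  apply HomogeneousLocalization.val_injective
  rw [Away.val_mk, HomogeneousLocalization.val_zero]
  have : mMon M n 0 hb = 0 := by
    apply Subtype.ext
    simp [mMon]
  rw [this, Localization.mk_zero]

lemma div_pow_mem (a : F) (C : Subalgebra O F) (h1 : ∀ m ∈ M, m / a ∈ C) (n : ℕ) {b : F}
    (hb : b ∈ M ^ n) : b / a ^ n ∈ C := by
  induction n generalizing b with
  | zero =>
    rw [pow_zero] at hb
    obtain ⟨r, hr⟩ := Submodule.mem_one.1 hb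
    rw [pow_zero, div_one, ← hr]
    exact C.algebraMap_mem r
  | succ n ih =>
    rw [pow_succ] at hb
    refine Submodule.mul_induction_on hb ?_ ?_
    · intro x hx y hy
      rw [pow_succ, mul_div_mul_comm]
      exact C.mul_mem (ih hx) (h1 y hy)
    · intro x y hx hy
      rw [add_div]
      exact C.add_mem hx hy

/-- The range of `psi` is the chart ring `O[M / a]`. -/
lemma mem_range_psi (a : F) (ha : a ∈ M) (ha0 : a ≠ 0) (x : F) :
    (∃ z, psi M a ha ha0 z = x) ↔ x ∈ Algebra.adjoin O {y | ∃ m ∈ M, y = m / a} := by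
  constructor
  · rintro ⟨z, rfl⟩
    obtain ⟨n, b, hb, rfl⟩ := exists_frac M a ha z
    rw [psi_frac]
    refine div_pow_mem M a _ (fun m hm => ?_) n hb
    have h : m / a ∈ ({y | ∃ m ∈ M, y = m / a} : Set F) := ⟨m, hm, rfl⟩
    exact Algebra.subset_adjoin h
  · intro hx
    induction hx using Algebra.adjoin_induction with
    | mem x hx =>
      obtain ⟨m, hm, rfl⟩ := hx
      refine ⟨frac M a ha 1 m (by simpa using hm), ?_⟩
      rw [psi_frac, pow_one]
    | algebraMap r =>
      refine ⟨frac M a ha 0 (algebraMap O F r)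
        (by rw [pow_zero]; exact Submodule.mem_one.2 ⟨r, rfl⟩), ?_⟩
      rw [psi_frac, pow_zero, div_one]
    | add x y _ _ hx hy =>
      obtain ⟨z, rfl⟩ := hx
      obtain ⟨w, rfl⟩ := hy
      exact ⟨z + w, map_add _ _ _⟩
    | mul x y _ _ hx hy =>
      obtain ⟨z, rfl⟩ := hx
      obtain ⟨w, rfl⟩ := hy
      exact ⟨z * w, map_mul _ _ _⟩

end Pool.Agent.H968R2.Quad
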