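import Pool.Agent.H968R2.Quad.MAlg

/-! Task A of helper918's blueprint for MP_4d1008_ag: the projective model `Proj ⨁ Mⁿ`. -/

set_option autoImplicit false

open Polynomial DirectSum HomogeneousLocalization AlgebraicGeometry CategoryTheory

namespace Pool.Agent.H968R2.Quad

variable {O : Type} [CommRing O] {F : Type} [Field F] [Algebra O F] (M : Submodule O F)

/-- The projective model. -/
noncomputable def model : Scheme.{0} := Proj (mPiece M)

/-- the map from `O` to the degree zero part, as a morphism -/
noncomputable def toZeroHom : CommRingCat.of O ⟶ CommRingCat.of (mPiece M 0) :=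
  CommRingCat.ofHom (R := O) (S := mPiece M 0) (toZero M)

/-- The structure morphism. -/
noncomputable def modelMap : model M ⟶ Spec (CommRingCat.of O) :=
  Proj.toSpecZero (mPiece M) ≫ Spec.map (toZeroHom M)

lemma modelMap_isProper (hinj : Function.Injective (algebraMap O F)) (hM : M.FG) :
    IsProper (modelMap M) := by
  have := finiteType_zero M hM
  have h1 : IsProper (Proj.toSpecZero (mPiece M)) := inferInstance
  have h2 : IsIso (toZeroHom M) := by
    have : toZeroHom M =
        (RingEquiv.ofBijective (toZero M) (toZero_bijective M hinj)).toCommRingCatIso.hom := rfl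
    rw [this]
    infer_instance
  have h3 : IsIso (Spec.map (toZeroHom M)) := inferInstance
  have h4 : IsProper (Spec.map (toZeroHom M)) := inferInstance
  unfold modelMap
  exact MorphismProperty.comp_mem @IsProper _ _ h1 h4

/-- the generic point of the model -/
noncomputable def modelGeneric (a : F) (ha : a ∈ M) (ha0 : a ≠ 0) :
    ProjectiveSpectrum (mPiece M) where
  asHomogeneousIdeal := ⊥
  isPrime := by
    change (⊥ : Ideal (mAlg M)).IsPrime
    exact Ideal.isPrime_bot
  not_irrelevant_le := by
    intro h
    have h1 : tElt M a ha ∈ HomogeneousIdeal.irrelevant (mPiece M) := by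
      rw [HomogeneousIdeal.mem_irrelevant_iff, GradedRing.proj_apply,
        DirectSum.decompose_of_mem_ne (mPiece M) (tElt_mem M a ha) one_ne_zero]
    have h2 := h h1
    have h3 : tElt M a ha = 0 := by
      have : tElt M a ha ∈ (⊥ : Ideal (mAlg M)) := h2
      simpa using this
    have h4 := congrArg (fun z : mAlg M => (z : F[X]).coeff 1) h3
    simp [tElt, mMon] at h4
    exact ha0 h4

lemma model_irreducible (a : F) (ha : a ∈ M) (ha0 : a ≠ 0) : IrreducibleSpace (model M) := by
  have h : closure ({modelGeneric M a ha ha0} : Set (ProjectiveSpectrum (mPiece M))) =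
      Set.univ := by
    rw [Set.eq_univ_iff_forall]
    intro x
    rw [← ProjectiveSpectrum.le_iff_mem_closure, ← ProjectiveSpectrum.as_ideal_le_as_ideal]
    exact bot_le
  have h2 : IsIrreducible (Set.univ : Set (model M)) := by
    change IsIrreducible (Set.univ : Set (ProjectiveSpectrum (mPiece M)))
    rw [← h]
    exact isIrreducible_singleton.closure
  exact (irreducibleSpace_def _).2 h2

lemma homLoc_reduced (x : Submonoid (mAlg M)) (hx : x ≤ nonZeroDivisors (mAlg M)) :
    _root_.IsReduced (HomogeneousLocalization (mPiece M) x) := by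
  have hdom : IsDomain (Localization x) := IsLocalization.isDomain_localization hx
  let G : HomogeneousLocalization (mPiece M) x →+* Localization x := algebraMap _ _
  have hinj2 : Function.Injective G := by
    intro a b hab
    apply HomogeneousLocalization.val_injective
    exact hab
  exact isReduced_of_injective G hinj2

lemma model_reduced : IsReduced (model M) := by
  have : ∀ x : Proj (mPiece M), _root_.IsReduced ((Proj (mPiece M)).presheaf.stalk x) := by
    intro x
    have hprime : x.asHomogeneousIdeal.toIdeal.IsPrime := x.isPrime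
    have h1 : _root_.IsReduced (AtPrime (mPiece M) x.asHomogeneousIdeal.toIdeal) :=
      homLoc_reduced M _ (Ideal.primeCompl_le_nonZeroDivisors _)
    exact isReduced_of_injective (Proj.stalkIso (mPiece M) x).hom.hom
      (Proj.stalkIso (mPiece M) x).commRingCatIsoToRingEquiv.injective
  exact isReduced_of_isReduced_stalk (Proj (mPiece M))

lemma model_integral (a : F) (ha : a ∈ M) (ha0 : a ≠ 0) : IsIntegral (model M) := by
  have := model_irreducible M a ha ha0
  have := model_reduced M
  exact isIntegral_of_irreducibleSpace_of_isReduced _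

/-- If a relevant homogeneous prime contained all elements `b T` with `b ∈ M`, it would contain
the irrelevant ideal. -/
lemma not_all_mem (y : ProjectiveSpectrum (mPiece M))
    (h : ∀ (b : F) (hb : b ∈ M), tElt M b hb ∈ y.asHomogeneousIdeal) : False := by
  have key : ∀ (n : ℕ) (b : F) (hb : b ∈ M ^ (n + 1)),
      mMon M (n + 1) b hb ∈ y.asHomogeneousIdeal := by
    intro n b hb
    have hb' := hb
    rw [pow_succ] at hb'
    induction hb' using Submodule.mul_induction_on' with
    | mem_mul_mem a ha c hc =>
      have : mMon M (n + 1) (a * c) hb = mMon M n a ha * tElt M c hc := by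
        apply Subtype.ext
        simp only [mMon, tElt]
        change _ = Polynomial.monomial n a * Polynomial.monomial 1 c
        rw [Polynomial.monomial_mul_monomial]
      rw [this]
      exact Ideal.mul_mem_left _ _ (h c hc)
    | add a ha c hc iha ihc =>
      have ha' : a ∈ M ^ (n + 1) := by rw [pow_succ]; exact ha
      have hc' : c ∈ M ^ (n + 1) := by rw [pow_succ]; exact hc
      have : mMon M (n + 1) (a + c) hb = mMon M (n + 1) a ha' +
          mMon M (n + 1) c hc' := by
        apply Subtype.ext
        simp only [mMon]
        change _ = Polynomial.monomial (n + 1) a + Polynomial.monomial (n + 1) c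
        rw [map_add]
      rw [this]
      exact Ideal.add_mem _ (iha ha') (ihc hc')
  apply y.not_irrelevant_le
  intro z hz
  have hz0 := (HomogeneousIdeal.mem_irrelevant_iff _ _).1 hz
  rw [GradedRing.proj_apply] at hz0
  change z ∈ y.asHomogeneousIdeal.toIdeal
  classical
  rw [← DirectSum.sum_support_decompose (mPiece M) z]
  apply Ideal.sum_mem
  intro i _
  cases i with
  | zero =>
    rw [hz0]
    exact Ideal.zero_mem _
  | succ n =>
    rw [eq_mMon M (DirectSum.decompose (mPiece M) z (n + 1)).2]
    exact key n _ _

/-- The chart attached to a nonzero element of the module. -/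
noncomputable def modelChart (a : F) (ha : a ∈ M) :
    Spec (CommRingCat.of (Away (mPiece M) (tElt M a ha))) ⟶ model M :=
  Proj.awayι (mPiece M) (tElt M a ha) (tElt_mem M a ha) one_pos

instance (a : F) (ha : a ∈ M) : IsOpenImmersion (modelChart M a ha) :=
  inferInstanceAs (IsOpenImmersion
    (Proj.awayι (mPiece M) (tElt M a ha) (tElt_mem M a ha) one_pos))

lemma modelChart_opensRange (a : F) (ha : a ∈ M) :
    (modelChart M a ha).opensRange = Proj.basicOpen (mPiece M) (tElt M a ha) :=
  Proj.opensRange_awayι (mPiece M) (tElt M a ha) (tElt_mem M a ha) one_pos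

lemma exists_chart (y : model M) : ∃ (a : F) (ha : a ∈ M), a ≠ 0 ∧
    ∃ z, modelChart M a ha z = y := by
  obtain ⟨b, hb, hyb⟩ : ∃ (b : F) (hb : b ∈ M), tElt M b hb ∉
      ProjectiveSpectrum.asHomogeneousIdeal (𝒜 := mPiece M) y := by
    by_contra hcon
    apply not_all_mem M y
    intro b hb
    by_contra h
    exact hcon ⟨b, hb, h⟩
  refine ⟨b, hb, ?_, ?_⟩
  · rintro rfl
    apply hyb
    have : tElt M 0 hb = 0 := by
      apply Subtype.ext
      simp [tElt, mMon]
    rw [this]
    exact Ideal.zero_mem _
  · have h1 : y ∈ (modelChart M b hb).opensRange := by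
      rw [modelChart_opensRange]
      exact hyb
    exact h1

/-- The chart ring is `O[M / a]`. -/
noncomputable def chartEquiv (a : F) (ha : a ∈ M) (ha0 : a ≠ 0) :
    Away (mPiece M) (tElt M a ha) ≃+* Algebra.adjoin O {y : F | ∃ m ∈ M, y = m / a} :=
  RingEquiv.ofBijective
    ((psi M a ha ha0).codRestrict (Algebra.adjoin O {y : F | ∃ m ∈ M, y = m / a})
      (fun z => (mem_range_psi M a ha ha0 _).1 ⟨z, rfl⟩))
    ⟨fun x y h => psi_injective M a ha ha0 (congrArg Subtype.val h), fun x => by
      obtain ⟨z, hz⟩ := (mem_range_psi M a ha ha0 x.1).2 x.2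
      exact ⟨z, Subtype.ext hz⟩⟩

end Pool.Agent.H968R2.Quad
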